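import Mathlib
import Pool.Agent.H546Z.AmDefs
import Pool.Agent.H546Z.AmMain

set_option autoImplicit false

namespace Pool.Agent.Results.MP_91e65d_lc.Collapse

open Pool.Agent.H546Z.AmDefs

/-- Sanity check: systems of iterated Fréchet filters exist for every pairing. -/
theorem nonvacuous (π : ℕ × ℕ ≃ ℕ) : ∃ Fr, IsFrechetSystem π Fr :=
  Pool.Agent.H546Z.Am.exists_system π

/-- Every Fréchet-amenable countable Borel equivalence relation is amenable. -/
theorem result (π : ℕ × ℕ ≃ ℕ) (Fr : Ordinal.{0} → Filter ℕ) (hFr : IsFrechetSystem π Fr)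
    (X : Type) [MeasurableSpace X] [StandardBorelSpace X] (E : X → X → Prop) (hE : IsCBER E)
    (h : ∃ α : Ordinal.{0}, 1 ≤ α ∧ α.card ≤ Cardinal.aleph0 ∧ IsAmenable E hE.1 (Fr α)) :
    IsAmenable E hE.1 Filter.cofinite := by
  obtain ⟨α, h1, hc, h⟩ := h
  rw [← Pool.Agent.H546Z.Am.amen_iff hE] at h ⊢
  rw [Nat.cofinite_eq_atTop]
  exact (Pool.Agent.H546Z.Am.collapse hE hFr h1 hc).1 h

end Pool.Agent.Results.MP_91e65d_lc.Collapse
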